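import Pool.Agent.H436Z.SteinC

set_option autoImplicit false

namespace Pool.Agent.Results.MP_324c12_gt.NonRotational

open Pool.Agent.H436Z.Stein

/-- There is a compact convex body in Euclidean 3-space whose boundary is a Steinhaus surface and
is not a surface of revolution. -/
theorem result : ∃ K : Set E3, Convex ℝ K ∧ IsCompact K ∧ (interior K).Nonempty ∧
    IsSteinhaus (frontier K) ∧ ¬ IsSurfaceOfRevolution (frontier K) :=
  Pool.Agent.H436Z.Stein.main

end Pool.Agent.Results.MP_324c12_gt.NonRotational
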